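import Pool.Agent.GRA.StmtsM
import Pool.Agent.Helper64_FR.FIX
import Pool.Agent.Helper64_FR.DERP

/-!
GRA, row MZC: `D 1 = 0` if there is a nonzero torus invariant vector.
-/

set_option autoImplicit false

open MeasureTheory Matrix Finset

namespace Pool.Agent.GRA.H10

open Pool.Agent.Helper64_FR Pool.Agent.UTR Pool.Agent.BSE

theorem mzc : MZCStmt := by
  intro n ρ D hD hirr f hf hT
  obtain ⟨_, hW⟩ := hirr
  have hkill : ∀ i : Fin n, D (EE i i) f = 0 := by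
    intro i
    have h1 := DERP_proof FIX_proof n ρ D hD {i} i i (Finset.mem_singleton_self i)
      (Finset.mem_singleton_self i)
    have h2 := (FIX_proof n ρ {i}).2.1 f (hT i)
    have h3 := congrArg (fun T : ρ.Sp →L[ℂ] ρ.Sp => T f) h1
    have h4 : (D (EE i i) * ρ.P {i}) f = D (EE i i) (ρ.P {i} f) := rfl
    rw [h2] at h4
    rw [← h4]
    exact h3
  have h1f : D 1 f = 0 := by
    have e : (1 : Matrix (Fin n) (Fin n) ℂ) = ∑ i, EE i i := by
      ext a b
      rw [Matrix.sum_apply, Matrix.one_apply]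
      simp only [EE, Matrix.single_apply]
      by_cases hab : a = b
      · subst hab
        simp
      · rw [if_neg hab]
        symm
        apply Finset.sum_eq_zero
        intro i _
        rw [if_neg]
        rintro ⟨rfl, rfl⟩
        exact hab rfl
    rw [e, map_sum]
    have e2 : (∑ i, D (EE i i)) f = ∑ i, D (EE i i) f := by
      simp only [_root_.sum_apply]
    rw [e2]
    exact Finset.sum_eq_zero fun i _ => hkill i
  have hcomm : ∀ (g : UU n) (x : ρ.Sp), ρ.op g (D 1 x) = D 1 (ρ.op g x) := by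
    intro g x
    have hg : (g : Matrix (Fin n) (Fin n) ℂ) * star (g : Matrix (Fin n) (Fin n) ℂ) = 1 :=
      (Matrix.mem_unitaryGroup_iff).1 g.2
    have h1 := hD.conj_eq g 1
    rw [mul_one, hg] at h1
    exact congrArg (fun T : ρ.Sp →L[ℂ] ρ.Sp => T x) h1
  obtain ⟨e, he⟩ : ∃ e : ρ.Sp ≃ₗ[ℂ] (Fin ρ.dim → ℂ), e = WithLp.linearEquiv 2 ℂ (Fin ρ.dim → ℂ) :=
    ⟨_, rfl⟩
  obtain ⟨E, hE'⟩ : ∃ E : Submodule ℂ ρ.Sp,
    E = LinearMap.ker ((D 1 : ρ.Sp →L[ℂ] ρ.Sp) : ρ.Sp →ₗ[ℂ] ρ.Sp) := ⟨_, rfl⟩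
  have hE : ∀ x : ρ.Sp, x ∈ E ↔ D 1 x = 0 := by
    intro x
    rw [hE', LinearMap.mem_ker]
    rfl
  have hinv : ∀ g : UU n, ∀ x ∈ E, ρ.op g x ∈ E := by
    intro g x hx
    rw [hE] at hx ⊢
    rw [← hcomm, hx, map_zero]
  have htop := hW (E.map (e : ρ.Sp →ₗ[ℂ] (Fin ρ.dim → ℂ))) (by
    rintro g _ ⟨x, hx, rfl⟩
    refine ⟨ρ.op g x, hinv g x hx, ?_⟩
    rw [he]
    rfl)
  rcases htop with h | h
  · exfalso
    have h2 : E = ⊥ := (Submodule.map_eq_bot_iff (p := E)).1 h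
    have h3 : f ∈ E := (hE f).2 h1f
    rw [h2, Submodule.mem_bot] at h3
    exact hf h3
  · have h2 := (Submodule.map_eq_top_iff (p := E) (e := e)).1 h
    ext1 x
    have h3 : x ∈ E := by rw [h2]; trivial
    exact (hE x).1 h3

end Pool.Agent.GRA.H10
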